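import Pool.Agent.Q171.CE.Metab
import Pool.Agent.Q171.CE.Ex

/-!
# Zero signature does not make a Poincaré duality CDGA a semi-trivial mapping cone

The answer to Q1 of MP_43ef35_gt is negative in every dimension `n - 1 = 4k`, `k ≥ 1`.

* If a CDGA `A` over `ℚ` with Poincaré duality in dimension `4k` is quasi-isomorphic to a cone
  `Q ⊕_Ψ s s^{-n} # Q` (`n = 4k + 1`, `Q` non-negatively graded, `Ψ` balanced), then the form
  `H^{2k} × H^{2k} → H^{4k}` is metabolic over `ℚ`: some subspace equals its own orthogonal.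
* The algebra `ℚ[x, y] / (x y, y^2 + 2 x^2, x^3)` with zero differential, `x, y` of degree `2k`,
  has Poincaré duality in dimension `4k` and signature `0` (form `⟨1⟩ ⊕ ⟨-2⟩`), and its form is
  not metabolic, since `2` is not a square in `ℚ`.

Quasi-isomorphic means joined by a zigzag of quasi-isomorphisms of `ℤ`-graded CDGAs, which
includes the zigzags of non-negatively graded ones.
-/

set_option autoImplicit false

namespace Pool.Agent.Results.MP_43ef35_gt.NotACone

open Pool.Agent.Q171.CE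

theorem result :
    (∀ (k : ℤ) (A Q : CDGA), A.PoincareDuality (4 * k) → Q.NonNeg →
      ∀ Ψ : Balanced Q (4 * k + 1),
        QuasiIsomorphic A (CDGA.cone Q (4 * k + 1) Ψ) → A.Metabolic k) ∧
    (∀ k : ℤ, 1 ≤ k → ∃ A : CDGA, A.NonNeg ∧ A.PoincareDuality (4 * k) ∧ A.SignatureZero k ∧
      ∀ Q : CDGA, Q.NonNeg → ∀ Ψ : Balanced Q (4 * k + 1),
        ¬ QuasiIsomorphic A (CDGA.cone Q (4 * k + 1) Ψ)) := by
  refine ⟨fun k A Q hA hQ Ψ h => CDGA.metabolic hQ hA Ψ h, fun k hk => ⟨exA k, ?_,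
    CDGA.ex_PD hk, CDGA.ex_sig hk, fun Q hQ Ψ h =>
      CDGA.ex_not_metabolic hk (CDGA.metabolic hQ (CDGA.ex_PD hk) Ψ h)⟩⟩
  intro i hi
  refine ⟨fun u v => ?_⟩
  have h : ∀ w : FW k i, w = 0 := by
    intro w
    have hw := w.2
    rw [mem_FW] at hw
    obtain ⟨h2, h3, h4⟩ := hw
    apply Subtype.ext
    ext t
    fin_cases t
    · exact h2 (by omega)
    · exact (h3 (by omega)).1
    · exact (h3 (by omega)).2
    · exact h4 (by omega)
  exact (h u).trans (h v).symm

end Pool.Agent.Results.MP_43ef35_gt.NotACone
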